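import Mathlib

set_option autoImplicit false

/-!
Definitions for pinwheel scheduling with durations.
-/

namespace Pool.Agent.H80.Pin

open Computability

/-- An instance: a nonempty list of jobs `(f, p)` with positive integer frequency `f` and positive
integer duration `p`, listed in nondecreasing order of the frequencies. -/
structure Inst where
  /-- the jobs `(f_i, p_i)` -/
  jobs : List (ℕ × ℕ)
  jobs_ne_nil : jobs ≠ []
  jobs_pos : ∀ j ∈ jobs, 0 < j.1 ∧ 0 < j.2
  jobs_sorted : jobs.Pairwise (fun a b => a.1 ≤ b.1)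

/-- the frequency `f_i` -/
def Inst.freq (V : Inst) (i : Fin V.jobs.length) : ℕ := (V.jobs.get i).1

/-- the duration `p_i` -/
def Inst.dur (V : Inst) (i : Fin V.jobs.length) : ℕ := (V.jobs.get i).2

/-- `a < b` are consecutive elements of `S⁻¹(i)` -/
def Consec {n : ℕ} (S : ℕ → Fin n) (i : Fin n) (a b : ℕ) : Prop :=
  a < b ∧ S a = i ∧ S b = i ∧ ∀ c, a < c → c < b → S c ≠ i

open Classical in
/-- `c_i(V, S)`: infinite if `S⁻¹(i)` is finite, and otherwise the supremum, over consecutive
elements `a < b` of `S⁻¹(i)`, of the gap `∑_{t = a + 1}^{b} p_{S(t)}`. -/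
noncomputable def Inst.cost (V : Inst) (S : ℕ → Fin V.jobs.length) (i : Fin V.jobs.length) : ℕ∞ :=
  if {t | S t = i}.Finite then ⊤
  else ⨆ (a : ℕ) (b : ℕ) (_ : Consec S i a b), ((∑ t ∈ Finset.Ioc a b, V.dur (S t) : ℕ) : ℕ∞)

/-- `V` is feasible: some schedule `S` has `c_i(V, S) ≤ f_i` for all `i`. -/
def Inst.Feasible (V : Inst) : Prop :=
  ∃ S : ℕ → Fin V.jobs.length, ∀ i, V.cost S i ≤ (V.freq i : ℕ∞)

/-- the density `∑ p_i / f_i` -/
def Inst.density (V : Inst) : ℚ := ∑ i, (V.dur i : ℚ) / V.freq i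

/-- frequency divisibility: `f_i ∣ f_{i+1}` for all `i` -/
def Inst.FreqDiv (V : Inst) : Prop :=
  ∀ (i : ℕ) (h : i + 1 < V.jobs.length),
    V.freq ⟨i, Nat.lt_of_succ_lt h⟩ ∣ V.freq ⟨i + 1, h⟩

/-- encoding of one job `(f, p)` over the alphabet `Computability.Γ'`: the binary digits of `f`,
a comma, the binary digits of `p`, a `ket`. -/
def encodeJob (j : ℕ × ℕ) : List Γ' :=
  (encodeNat j.1).map Γ'.bit ++ Γ'.comma :: ((encodeNat j.2).map Γ'.bit ++ [Γ'.ket])

/-- encoding of a list of jobs: concatenation of the encodings of the jobs -/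
def encodeJobs (L : List (ℕ × ℕ)) : List Γ' := L.flatMap encodeJob

/-- binary encoding of an instance -/
def Inst.encode (V : Inst) : List Γ' := encodeJobs V.jobs

end Pool.Agent.H80.Pin
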