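import Mathlib

set_option autoImplicit false

namespace Pool.Agent.H80.Pin

open Turing Computability

/-- the stacks of the machine: input, the smallest frequency, the remaining room, scratch, output -/
inductive Stk
  | inp | F | R | T | out
  deriving DecidableEq

instance : Fintype Stk := ⟨{Stk.inp, Stk.F, Stk.R, Stk.T, Stk.out}, by intro x; cases x <;> decide⟩

/-- alphabets of the stacks -/
@[reducible] def Sym : Stk → Type
  | Stk.inp => Γ'
  | Stk.F => Bool
  | Stk.R => Bool
  | Stk.T => Bool
  | Stk.out => Bool

instance : Fintype (Sym Stk.inp) := inferInstanceAs (Fintype Γ')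

/-- labels -/
inductive Lab
  | rd | dup | sub | subR | rst | nxt | cmp | cmpF | rstF | fin
  deriving DecidableEq

instance : Fintype Lab := ⟨{Lab.rd, Lab.dup, Lab.sub, Lab.subR, Lab.rst, Lab.nxt, Lab.cmp, Lab.cmpF,
  Lab.rstF, Lab.fin}, by intro x; cases x <;> decide⟩

/-- internal state of the machine -/
structure St where
  x : Option Γ'
  y : Option Bool
  c : Bool
  e : Bool
  ok : Bool
  deriving DecidableEq, Fintype

/-- digit test -/
def isBit : Option Γ' → Bool
  | some (Γ'.bit _) => true
  | _ => false

/-- digit value -/
def bitOf : Option Γ' → Bool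
  | some (Γ'.bit b) => b
  | _ => false

/-- difference digit -/
def dig (e y b c : Bool) : Bool := if e then xor (xor y b) c else y

/-- borrow -/
def bor (y b c : Bool) : Bool := if y then b && c else b || c

/-- the initial state -/
def st0 : St := ⟨none, none, false, false, false⟩

open TM2.Stmt in
/-- the program -/
def prog : Lab → TM2.Stmt Sym Lab St
  | Lab.rd =>
      pop Stk.inp (fun (s : St) x => ({ s with x := x } : St)) <|
      branch (fun (s : St) => isBit s.x)
        (push Stk.T (fun (s : St) => (bitOf s.x : Bool)) <| goto (fun _ => Lab.rd))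
        (goto (fun _ => Lab.dup))
  | Lab.dup =>
      pop Stk.T (fun (s : St) y => ({ s with y := y } : St)) <|
      branch (fun (s : St) => s.y.isSome)
        (push Stk.F (fun (s : St) => (s.y.getD false : Bool)) <|
         push Stk.R (fun (s : St) => (s.y.getD false : Bool)) <| goto (fun _ => Lab.dup))
        (load (fun (s : St) => ({ s with e := true, c := false } : St)) <| goto (fun _ => Lab.sub))
  | Lab.sub =>
      pop Stk.inp (fun (s : St) x => ({ s with x := x } : St)) <|
      branch (fun (s : St) => isBit s.x)
        (pop Stk.R (fun (s : St) y => ({ s with y := y } : St)) <|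
         push Stk.T (fun (s : St) => (dig s.e (s.y.getD false) (bitOf s.x) s.c : Bool)) <|
         load (fun (s : St) => ({ s with c := bor (s.y.getD false) (bitOf s.x) s.c } : St)) <|
         goto (fun _ => Lab.sub))
        (goto (fun _ => Lab.subR))
  | Lab.subR =>
      pop Stk.R (fun (s : St) y => ({ s with y := y } : St)) <|
      branch (fun (s : St) => s.y.isSome)
        (push Stk.T (fun (s : St) => (dig s.e (s.y.getD false) false s.c : Bool)) <|
         load (fun (s : St) => ({ s with c := bor (s.y.getD false) false s.c } : St)) <|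
         goto (fun _ => Lab.subR))
        (branch (fun (s : St) => s.c)
          (load (fun (s : St) => ({ s with ok := false } : St)) <| goto (fun _ => Lab.fin))
          (goto (fun _ => Lab.rst)))
  | Lab.rst =>
      pop Stk.T (fun (s : St) y => ({ s with y := y } : St)) <|
      branch (fun (s : St) => s.y.isSome)
        (push Stk.R (fun (s : St) => (s.y.getD false : Bool)) <| goto (fun _ => Lab.rst))
        (goto (fun _ => Lab.nxt))
  | Lab.nxt =>
      peek Stk.inp (fun (s : St) x => ({ s with x := x } : St)) <|
      branch (fun (s : St) => s.x.isSome)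
        (load (fun (s : St) => ({ s with e := true } : St)) <| goto (fun _ => Lab.cmp))
        (load (fun (s : St) => ({ s with ok := true } : St)) <| goto (fun _ => Lab.fin))
  | Lab.cmp =>
      pop Stk.inp (fun (s : St) x => ({ s with x := x } : St)) <|
      branch (fun (s : St) => isBit s.x)
        (pop Stk.F (fun (s : St) y => ({ s with y := y } : St)) <|
         branch (fun (s : St) => s.y.isSome)
          (push Stk.T (fun (s : St) => (s.y.getD false : Bool)) <|
           load (fun (s : St) => ({ s with e := s.e && (s.y == some (bitOf s.x)) } : St)) <|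
           goto (fun _ => Lab.cmp))
          (load (fun (s : St) => ({ s with e := false } : St)) <| goto (fun _ => Lab.cmp)))
        (goto (fun _ => Lab.cmpF))
  | Lab.cmpF =>
      pop Stk.F (fun (s : St) y => ({ s with y := y } : St)) <|
      branch (fun (s : St) => s.y.isSome)
        (push Stk.T (fun (s : St) => (s.y.getD false : Bool)) <|
         load (fun (s : St) => ({ s with e := false } : St)) <| goto (fun _ => Lab.cmpF))
        (goto (fun _ => Lab.rstF))
  | Lab.rstF =>
      pop Stk.T (fun (s : St) y => ({ s with y := y } : St)) <|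
      branch (fun (s : St) => s.y.isSome)
        (push Stk.F (fun (s : St) => (s.y.getD false : Bool)) <| goto (fun _ => Lab.rstF))
        (load (fun (s : St) => ({ s with c := false } : St)) <| goto (fun _ => Lab.sub))
  | Lab.fin =>
      pop Stk.inp (fun (s : St) x => ({ s with x := x } : St)) <|
      pop Stk.F (fun (s : St) y => ({ s with y := y, c := s.x.isNone && y.isNone } : St)) <|
      pop Stk.R (fun (s : St) y => ({ s with y := y, c := s.c && y.isNone } : St)) <|
      pop Stk.T (fun (s : St) y => ({ s with y := y, c := s.c && y.isNone } : St)) <|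
      branch (fun (s : St) => s.c)
        (push Stk.out (fun (s : St) => (s.ok : Bool)) <|
         load (fun _ => st0) <| halt)
        (goto (fun _ => Lab.fin))

/-- the machine -/
def tm : FinTM2 where
  K := Stk
  k₀ := Stk.inp
  k₁ := Stk.out
  Γ := Sym
  Λ := Lab
  main := Lab.rd
  σ := St
  initialState := st0
  m := prog

/-- stack contents -/
def stks (i : List Γ') (F R T o : List Bool) : ∀ k, List (Sym k)
  | Stk.inp => i
  | Stk.F => F
  | Stk.R => R
  | Stk.T => T
  | Stk.out => o

theorem upd_inp (i i' : List Γ') (F R T o : List Bool) :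
    Function.update (stks i F R T o) Stk.inp i' = stks i' F R T o := by
  funext k; cases k <;> rfl

theorem upd_F (i : List Γ') (F F' R T o : List Bool) :
    Function.update (stks i F R T o) Stk.F F' = stks i F' R T o := by
  funext k; cases k <;> rfl

theorem upd_R (i : List Γ') (F R' R T o : List Bool) :
    Function.update (stks i F R T o) Stk.R R' = stks i F R' T o := by
  funext k; cases k <;> rfl

theorem upd_T (i : List Γ') (F R T T' o : List Bool) :
    Function.update (stks i F R T o) Stk.T T' = stks i F R T' o := by
  funext k; cases k <;> rfl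

theorem upd_out (i : List Γ') (F R T o' o : List Bool) :
    Function.update (stks i F R T o) Stk.out o' = stks i F R T o' := by
  funext k; cases k <;> rfl


theorem stks_inp (i : List Γ') (F R T o : List Bool) : stks i F R T o Stk.inp = i := rfl
theorem stks_F (i : List Γ') (F R T o : List Bool) : stks i F R T o Stk.F = F := rfl
theorem stks_R (i : List Γ') (F R T o : List Bool) : stks i F R T o Stk.R = R := rfl
theorem stks_T (i : List Γ') (F R T o : List Bool) : stks i F R T o Stk.T = T := rfl
theorem stks_out (i : List Γ') (F R T o : List Bool) : stks i F R T o Stk.out = o := rfl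

/-- one step -/
abbrev stp : TM2.Cfg Sym Lab St → Option (TM2.Cfg Sym Lab St) := TM2.step prog

/-- configuration -/
abbrev cf (l : Lab) (s : St) (i : List Γ') (F R T o : List Bool) : TM2.Cfg Sym Lab St :=
  ⟨some l, s, stks i F R T o⟩


attribute [simp] stks_inp stks_F stks_R stks_T stks_out upd_inp upd_F upd_R upd_T upd_out

/-- `Rch n a b`: `n` steps lead from `a` to `b` -/
def Rch (n : ℕ) (a b : TM2.Cfg Sym Lab St) : Prop := (flip bind stp)^[n] (some a) = some b

theorem Rch.refl (a : TM2.Cfg Sym Lab St) : Rch 0 a a := rfl

theorem Rch.trans {n m : ℕ} {a b c : TM2.Cfg Sym Lab St} (h1 : Rch n a b) (h2 : Rch m b c) :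
    Rch (n + m) a c := by
  unfold Rch at *
  rw [add_comm, Function.iterate_add_apply, h1, h2]

theorem Rch.one {a b : TM2.Cfg Sym Lab St} (h : stp a = some b) : Rch 1 a b := h

theorem Rch.cons {n : ℕ} {a b c : TM2.Cfg Sym Lab St} (h1 : stp a = some b) (h2 : Rch n b c) :
    Rch (n + 1) a c := by
  rw [add_comm]
  exact (Rch.one h1).trans h2

/-- a terminator symbol -/
def IsTerm (t : Γ') : Prop := isBit (some t) = false

/-- reading the first number onto the scratch stack -/
theorem rd_loop (t : Γ') (ht : IsTerm t) (i : List Γ') (F R o : List Bool) :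
    ∀ (l : List Bool) (T : List Bool) (s : St), ∃ s', Rch (l.length + 1)
      (cf Lab.rd s (l.map Γ'.bit ++ t :: i) F R T o) (cf Lab.dup s' i F R (l.reverse ++ T) o) := by
  intro l
  induction l with
  | nil =>
    intro T s
    refine ⟨{ s with x := some t }, Rch.one ?_⟩
    unfold IsTerm at ht
    simp [stp, cf, TM2.step, prog, TM2.stepAux, ht]
  | cons b l ih =>
    intro T s
    obtain ⟨s', hs'⟩ := ih (b :: T) { s with x := some (Γ'.bit b) }
    refine ⟨s', ?_⟩
    rw [List.length_cons]
    refine Rch.cons (b := cf Lab.rd { s with x := some (Γ'.bit b) } (l.map Γ'.bit ++ t :: i) F R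
      (b :: T) o) ?_ ?_
    · simp [stp, cf, TM2.step, prog, TM2.stepAux, isBit, bitOf]
    · simpa using hs'

/-- duplicating the first number -/
theorem dup_loop (i : List Γ') (o : List Bool) :
    ∀ (T F R : List Bool) (s : St), ∃ s', s'.e = true ∧ s'.c = false ∧ Rch (T.length + 1)
      (cf Lab.dup s i F R T o) (cf Lab.sub s' i (T.reverse ++ F) (T.reverse ++ R) [] o) := by
  intro T
  induction T with
  | nil =>
    intro F R s
    refine ⟨{ s with y := none, e := true, c := false }, rfl, rfl, Rch.one ?_⟩
    simp [stp, cf, TM2.step, prog, TM2.stepAux]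
  | cons b T ih =>
    intro F R s
    obtain ⟨s', h1, h2, hs'⟩ := ih (b :: F) (b :: R) { s with y := some b }
    refine ⟨s', h1, h2, ?_⟩
    rw [List.length_cons]
    refine Rch.cons (b := cf Lab.dup { s with y := some b } i (b :: F) (b :: R) T o) ?_ ?_
    · simp [stp, cf, TM2.step, prog, TM2.stepAux]
    · simpa using hs'

/-- list subtraction, mode `e`: digits and borrow -/
def subL (e : Bool) : List Bool → List Bool → Bool → List Bool × Bool
  | [], [], c => ([], c)
  | [], y :: r, c => (dig e y false c :: (subL e [] r (bor y false c)).1,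
      (subL e [] r (bor y false c)).2)
  | b :: p, [], c => (dig e false b c :: (subL e p [] (bor false b c)).1,
      (subL e p [] (bor false b c)).2)
  | b :: p, y :: r, c => (dig e y b c :: (subL e p r (bor y b c)).1,
      (subL e p r (bor y b c)).2)

/-- the label after a subtraction -/
def aft (c : Bool) : Lab := if c then Lab.fin else Lab.rst

theorem subR_loop (i : List Γ') (F o : List Bool) (e : Bool) :
    ∀ (R T : List Bool) (s : St), s.e = e → ∃ s', s'.e = e ∧
      ((subL e [] R s.c).2 = true → s'.ok = false) ∧ Rch (R.length + 1)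
      (cf Lab.subR s i F R T o)
      (cf (aft (subL e [] R s.c).2) s' i F [] ((subL e [] R s.c).1.reverse ++ T) o) := by
  intro R
  induction R with
  | nil =>
    intro T s he
    by_cases hc : s.c = true
    · refine ⟨{ s with y := none, ok := false }, he, fun _ => rfl, Rch.one ?_⟩
      simp [stp, cf, TM2.step, prog, TM2.stepAux, subL, aft, hc]
    · simp only [Bool.not_eq_true] at hc
      refine ⟨{ s with y := none }, he, ?_, Rch.one ?_⟩
      · simp [subL, hc]
      · simp [stp, cf, TM2.step, prog, TM2.stepAux, subL, aft, hc]
  | cons y R ih =>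
    intro T s he
    obtain ⟨s', h1, h2, hs'⟩ := ih (dig e y false s.c :: T)
      { s with y := some y, c := bor y false s.c } he
    refine ⟨s', h1, ?_, ?_⟩
    · simpa [subL] using h2
    rw [List.length_cons]
    refine Rch.cons (b := cf Lab.subR { s with y := some y, c := bor y false s.c } i F R
      (dig e y false s.c :: T) o) ?_ ?_
    · simp [stp, cf, TM2.step, prog, TM2.stepAux, he]
    · simpa [subL] using hs'

theorem sub_loop (t : Γ') (ht : IsTerm t) (i : List Γ') (F o : List Bool) (e : Bool) :
    ∀ (p R T : List Bool) (s : St), s.e = e → ∃ s', ∃ n ≤ p.length + R.length + 2, s'.e = e ∧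
      ((subL e p R s.c).2 = true → s'.ok = false) ∧ Rch n
      (cf Lab.sub s (p.map Γ'.bit ++ t :: i) F R T o)
      (cf (aft (subL e p R s.c).2) s' i F [] ((subL e p R s.c).1.reverse ++ T) o) := by
  intro p
  induction p with
  | nil =>
    intro R T s he
    obtain ⟨s', h1, h2, hs'⟩ := subR_loop i F o e R T { s with x := some t } he
    refine ⟨s', R.length + 1 + 1, by rw [List.length_nil]; omega, h1, h2, ?_⟩
    refine Rch.cons (b := cf Lab.subR { s with x := some t } i F R T o) ?_ hs'
    unfold IsTerm at ht
    simp [stp, cf, TM2.step, prog, TM2.stepAux, ht]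
  | cons b p ih =>
    intro R T s he
    cases R with
    | nil =>
      obtain ⟨s', n, hn, h1, h2, hs'⟩ := ih [] (dig e false b s.c :: T)
        { s with x := some (Γ'.bit b), y := none, c := bor false b s.c } he
      refine ⟨s', n + 1, by simp at hn ⊢; omega, h1, ?_, ?_⟩
      · simpa [subL] using h2
      refine Rch.cons (b := cf Lab.sub
        { s with x := some (Γ'.bit b), y := none, c := bor false b s.c }
        (p.map Γ'.bit ++ t :: i) F [] (dig e false b s.c :: T) o) ?_ ?_
      · simp [stp, cf, TM2.step, prog, TM2.stepAux, he, isBit, bitOf]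
      · simpa [subL] using hs'
    | cons y R =>
      obtain ⟨s', n, hn, h1, h2, hs'⟩ := ih R (dig e y b s.c :: T)
        { s with x := some (Γ'.bit b), y := some y, c := bor y b s.c } he
      refine ⟨s', n + 1, by simp at hn ⊢; omega, h1, ?_, ?_⟩
      · simpa [subL] using h2
      refine Rch.cons (b := cf Lab.sub
        { s with x := some (Γ'.bit b), y := some y, c := bor y b s.c }
        (p.map Γ'.bit ++ t :: i) F R (dig e y b s.c :: T) o) ?_ ?_
      · simp [stp, cf, TM2.step, prog, TM2.stepAux, he, isBit, bitOf]
      · simpa [subL] using hs'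

theorem rst_loop (i : List Γ') (F o : List Bool) :
    ∀ (T R : List Bool) (s : St), ∃ s', Rch (T.length + 1)
      (cf Lab.rst s i F R T o) (cf Lab.nxt s' i F (T.reverse ++ R) [] o) := by
  intro T
  induction T with
  | nil =>
    intro R s
    refine ⟨{ s with y := none }, Rch.one ?_⟩
    simp [stp, cf, TM2.step, prog, TM2.stepAux]
  | cons b T ih =>
    intro R s
    obtain ⟨s', hs'⟩ := ih (b :: R) { s with y := some b }
    refine ⟨s', ?_⟩
    rw [List.length_cons]
    refine Rch.cons (b := cf Lab.rst { s with y := some b } i F (b :: R) T o) ?_ ?_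
    · simp [stp, cf, TM2.step, prog, TM2.stepAux]
    · simpa using hs'

theorem rstF_loop (i : List Γ') (R o : List Bool) (e : Bool) :
    ∀ (T F : List Bool) (s : St), s.e = e → ∃ s', s'.e = e ∧ s'.c = false ∧ Rch (T.length + 1)
      (cf Lab.rstF s i F R T o) (cf Lab.sub s' i (T.reverse ++ F) R [] o) := by
  intro T
  induction T with
  | nil =>
    intro F s he
    refine ⟨{ s with y := none, c := false }, he, rfl, Rch.one ?_⟩
    simp [stp, cf, TM2.step, prog, TM2.stepAux]
  | cons b T ih =>
    intro F s he
    obtain ⟨s', h1, h2, hs'⟩ := ih (b :: F) { s with y := some b } he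
    refine ⟨s', h1, h2, ?_⟩
    rw [List.length_cons]
    refine Rch.cons (b := cf Lab.rstF { s with y := some b } i (b :: F) R T o) ?_ ?_
    · simp [stp, cf, TM2.step, prog, TM2.stepAux]
    · simpa using hs'

theorem cmpF_loop (i : List Γ') (R o : List Bool) :
    ∀ (F T : List Bool) (s : St), ∃ s', s'.e = (s.e && F.isEmpty) ∧ Rch (F.length + 1)
      (cf Lab.cmpF s i F R T o) (cf Lab.rstF s' i [] R (F.reverse ++ T) o) := by
  intro F
  induction F with
  | nil =>
    intro T s
    refine ⟨{ s with y := none }, by simp, Rch.one ?_⟩
    simp [stp, cf, TM2.step, prog, TM2.stepAux]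
  | cons b F ih =>
    intro T s
    obtain ⟨s', h1, hs'⟩ := ih (b :: T) { s with y := some b, e := false }
    refine ⟨s', by simpa using h1, ?_⟩
    rw [List.length_cons]
    refine Rch.cons (b := cf Lab.cmpF { s with y := some b, e := false } i F R (b :: T) o) ?_ ?_
    · simp [stp, cf, TM2.step, prog, TM2.stepAux]
    · simpa using hs'

theorem cmp_loop (t : Γ') (ht : IsTerm t) (i : List Γ') (R o : List Bool) :
    ∀ (p F T : List Bool) (s : St), ∃ s', ∃ n ≤ p.length + F.length + 2,
      s'.e = (s.e && decide (p = F)) ∧ Rch n
      (cf Lab.cmp s (p.map Γ'.bit ++ t :: i) F R T o) (cf Lab.rstF s' i [] R (F.reverse ++ T) o) := by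
  intro p
  induction p with
  | nil =>
    intro F T s
    obtain ⟨s', h1, hs'⟩ := cmpF_loop i R o F T { s with x := some t }
    refine ⟨s', F.length + 1 + 1, by rw [List.length_nil]; omega, ?_, ?_⟩
    · rw [h1]; cases F <;> simp
    refine Rch.cons (b := cf Lab.cmpF { s with x := some t } i F R T o) ?_ hs'
    unfold IsTerm at ht
    simp [stp, cf, TM2.step, prog, TM2.stepAux, ht]
  | cons b p ih =>
    intro F T s
    cases F with
    | nil =>
      obtain ⟨s', n, hn, h1, hs'⟩ := ih [] T
        { s with x := some (Γ'.bit b), y := none, e := false }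
      refine ⟨s', n + 1, by simp at hn ⊢; omega, by simpa using h1, ?_⟩
      refine Rch.cons (b := cf Lab.cmp { s with x := some (Γ'.bit b), y := none, e := false }
        (p.map Γ'.bit ++ t :: i) [] R T o) ?_ (by simpa using hs')
      simp [stp, cf, TM2.step, prog, TM2.stepAux, isBit]
    | cons y F =>
      obtain ⟨s', n, hn, h1, hs'⟩ := ih F (y :: T)
        { s with x := some (Γ'.bit b), y := some y, e := s.e && (some y == some b) }
      refine ⟨s', n + 1, by simp at hn ⊢; omega, ?_, ?_⟩
      · rw [h1]
        by_cases hyb : y = b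
        · subst hyb; simp
        · have : ¬ (b = y) := fun h => hyb h.symm
          simp [hyb, this]
      refine Rch.cons (b := cf Lab.cmp
        { s with x := some (Γ'.bit b), y := some y, e := s.e && (some y == some b) }
        (p.map Γ'.bit ++ t :: i) F R (y :: T) o) ?_ (by simpa using hs')
      simp [stp, cf, TM2.step, prog, TM2.stepAux, isBit, bitOf]

theorem fin_loop : ∀ (m : ℕ) (i : List Γ') (F R T : List Bool) (s : St),
    i.length + F.length + R.length + T.length ≤ m → ∃ n ≤ m + 1, Rch n
      (cf Lab.fin s i F R T []) ⟨none, st0, stks [] [] [] [] [s.ok]⟩ := by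
  intro m
  induction m with
  | zero =>
    intro i F R T s h
    have h1 : i = [] := List.length_eq_zero_iff.1 (by omega)
    have h2 : F = [] := List.length_eq_zero_iff.1 (by omega)
    have h3 : R = [] := List.length_eq_zero_iff.1 (by omega)
    have h4 : T = [] := List.length_eq_zero_iff.1 (by omega)
    subst h1 h2 h3 h4
    refine ⟨1, le_rfl, Rch.one ?_⟩
    simp [stp, cf, TM2.step, prog, TM2.stepAux]
  | succ m ih =>
    intro i F R T s h
    by_cases h0 : i.length + F.length + R.length + T.length = 0
    · have h1 : i = [] := List.length_eq_zero_iff.1 (by omega)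
      have h2 : F = [] := List.length_eq_zero_iff.1 (by omega)
      have h3 : R = [] := List.length_eq_zero_iff.1 (by omega)
      have h4 : T = [] := List.length_eq_zero_iff.1 (by omega)
      subst h1 h2 h3 h4
      refine ⟨1, by omega, Rch.one ?_⟩
      simp [stp, cf, TM2.step, prog, TM2.stepAux]
    · have hc : ((i.head?.isNone && F.head?.isNone) && R.head?.isNone && T.head?.isNone) = false := by
        by_contra hcon
        simp only [Bool.not_eq_false, Bool.and_eq_true, Option.isNone_iff_eq_none,
          List.head?_eq_none_iff] at hcon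
        obtain ⟨⟨⟨h1, h2⟩, h3⟩, h4⟩ := hcon
        subst h1 h2 h3 h4
        simp at h0
      obtain ⟨n, hn, hs'⟩ := ih i.tail F.tail R.tail T.tail
        { s with x := i.head?, y := T.head?, c := false } (by
          simp only [List.length_tail]
          omega)
      refine ⟨n + 1, by omega, Rch.cons ?_ hs'⟩
      simp [stp, cf, TM2.step, prog, TM2.stepAux, hc]

end Pool.Agent.H80.Pin
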