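import Mathlib

set_option autoImplicit false

namespace Pool.Agent.H80.Pin

open Finset

/-- load of bin `b` after placing the first `j` jobs -/
def load (k p r : ℕ → ℕ) (j b : ℕ) : ℕ :=
  ∑ i ∈ range j, if b % k i = r i then p i else 0

theorem sum_periodic {K : ℕ} (g : ℕ → ℕ) (hg : ∀ b, g (b + K) = g b) (q : ℕ) :
    ∑ b ∈ range (K * q), g b = q * ∑ b ∈ range K, g b := by
  have hg' : ∀ q b, g (K * q + b) = g b := by
    intro q
    induction q with
    | zero => intro b; simp
    | succ q ih =>
      intro b
      rw [show K * (q + 1) + b = (K * q + b) + K by ring, hg, ih]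
  induction q with
  | zero => simp
  | succ q ih =>
    rw [show K * (q + 1) = K * q + K by ring, Finset.sum_range_add, ih]
    simp only [hg']
    ring

theorem mod_periodic {k K : ℕ} (h : k ∣ K) (b : ℕ) : (b + K) % k = b % k := by
  obtain ⟨q, rfl⟩ := h
  simp

theorem sum_mod {k q r c : ℕ} (hr : r < k) :
    ∑ b ∈ range (k * q), (if b % k = r then c else 0) = q * c := by
  rw [sum_periodic _ (fun b => by simp) q]
  congr 1
  rw [Finset.sum_eq_single r]
  · simp [Nat.mod_eq_of_lt hr]
  · intro b hb hne
    rw [Finset.mem_range] at hb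
    rw [Nat.mod_eq_of_lt hb]
    simp [hne]
  · intro h
    exact absurd (Finset.mem_range.2 hr) h

theorem load_periodic {k p r : ℕ → ℕ} {j K : ℕ} (h : ∀ i < j, k i ∣ K) (b : ℕ) :
    load k p r j (b + K) = load k p r j b := by
  unfold load
  apply Finset.sum_congr rfl
  intro i hi
  rw [mod_periodic (h i (Finset.mem_range.1 hi))]

/-- the total load over one period -/
theorem sum_load {k p r : ℕ → ℕ} {j K : ℕ} (hk : ∀ i < j, k i ∣ K) (hr : ∀ i < j, r i < k i) :
    ((∑ b ∈ range K, load k p r j b : ℕ) : ℚ) = K * ∑ i ∈ range j, (p i : ℚ) / k i := by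
  unfold load
  rw [Finset.sum_comm, Finset.mul_sum]
  push_cast
  apply Finset.sum_congr rfl
  intro i hi
  have hi' := Finset.mem_range.1 hi
  obtain ⟨q, hq⟩ := hk i hi'
  have h1 : (∑ b ∈ range K, (if b % k i = r i then p i else 0)) = q * p i := by
    rw [hq]; exact sum_mod (hr i hi')
  have h2 : (∑ b ∈ range K, (if b % k i = r i then (p i : ℚ) else 0)) = q * p i := by
    exact_mod_cast congrArg (Nat.cast (R := ℚ)) h1
  rw [h2]
  have hk0 : (k i : ℚ) ≠ 0 := by
    have : 0 < k i := lt_of_le_of_lt (Nat.zero_le _) (hr i hi')
    exact_mod_cast this.ne'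
  rw [hq]
  push_cast
  field_simp

theorem load_congr {k p r r' : ℕ → ℕ} {j : ℕ} (h : ∀ i < j, r i = r' i) (b : ℕ) :
    load k p r j b = load k p r' j b := by
  unfold load
  apply Finset.sum_congr rfl
  intro i hi
  rw [h i (Finset.mem_range.1 hi)]

theorem dvd_chain {k : ℕ → ℕ} {n : ℕ} (hdiv : ∀ i, i + 1 < n → k i ∣ k (i + 1)) :
    ∀ j, j < n → ∀ i ≤ j, k i ∣ k j := by
  intro j
  induction j with
  | zero => intro _ i hi; rw [Nat.le_zero.1 hi]
  | succ j ih =>
    intro hj i hi
    rcases Nat.lt_or_ge i (j + 1) with h | h
    · exact (ih (by omega) i (by omega)).trans (hdiv j hj)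
    · rw [le_antisymm hi h]

/-- The counting inequality preserved when an empty class receives its first job. -/
theorem key_ineq (C N W p K : ℤ) (hC : 0 ≤ C) (hN : 1 ≤ N) (hW : N * (C - p) ≤ W)
    (h : 4 * C * N ^ 2 ≤ 8 * N * W + C * K ^ 2) :
    4 * C * (N + 1) ^ 2 ≤ 8 * (N + 1) * (W + p) + C * K ^ 2 := by
  have h1 : 0 ≤ (8 * N * (N + 1)) * (W - N * (C - p)) :=
    mul_nonneg (by positivity) (by linarith)
  have h2 : 0 ≤ (N ^ 2 - 1) * (8 * N * W + C * K ^ 2 - 4 * C * N ^ 2) :=
    mul_nonneg (by nlinarith) (by linarith)
  have h3 : 0 ≤ C * K ^ 2 := by positivity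
  have h4 : 0 ≤ N ^ 2 * (8 * (N + 1) * (W + p) + C * K ^ 2 - 4 * C * (N + 1) ^ 2) := by
    nlinarith
  have h5 : 0 < N ^ 2 := by positivity
  have := nonneg_of_mul_nonneg_right h4 h5
  linarith

theorem pack_step (n C : ℕ) (k p : ℕ → ℕ) (hk2 : ∀ i < n, 2 ≤ k i)
    (hdiv : ∀ i, i + 1 < n → k i ∣ k (i + 1)) (hp : ∀ i < n, 0 < p i ∧ p i ≤ C)
    (hD : 8 * ∑ i ∈ range n, (p i : ℚ) / k i ≤ 3 * C) :
    ∀ j, j < n → ∃ r : ℕ → ℕ, (∀ i < j + 1, r i < k i) ∧ (∀ b, load k p r (j + 1) b ≤ C) ∧
      (4 * C * (∑ b ∈ range (k j), if 0 < load k p r (j + 1) b then 1 else 0) ^ 2 ≤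
        8 * (∑ b ∈ range (k j), if 0 < load k p r (j + 1) b then 1 else 0) *
          (∑ b ∈ range (k j), load k p r (j + 1) b) + C * (k j) ^ 2) := by
  intro j
  induction j with
  | zero =>
    intro hj
    have hk := hk2 0 hj
    have hp0 := hp 0 hj
    refine ⟨fun _ => 0, ?_, ?_, ?_⟩
    · intro i hi
      have : i = 0 := by omega
      subst this
      show 0 < k 0
      omega
    · intro b
      simp only [load, zero_add, Finset.sum_range_one]
      split_ifs
      · exact hp0.2
      · exact Nat.zero_le _
    · have e1 : (∑ b ∈ range (k 0), if 0 < load k p (fun _ => 0) (0 + 1) b then 1 else 0) = 1 := by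
        have : (∑ b ∈ range (k 0), if 0 < load k p (fun _ => 0) (0 + 1) b then 1 else 0)
            = ∑ b ∈ range (k 0 * 1), if b % k 0 = 0 then 1 else 0 := by
          rw [mul_one]
          apply Finset.sum_congr rfl
          intro b _
          simp only [load, zero_add, Finset.sum_range_one]
          by_cases h : b % k 0 = 0
          · simp [h, hp0.1]
          · simp [h]
        rw [this, sum_mod (by omega)]
      rw [e1]
      have h4 : C * 4 ≤ C * k 0 ^ 2 := Nat.mul_le_mul_left C (by nlinarith)
      generalize (∑ b ∈ range (k 0), load k p (fun _ => 0) (0 + 1) b) = X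
      generalize C * k 0 ^ 2 = Y at *
      omega
  | succ j ih =>
    intro hj
    obtain ⟨r, hr, hload, hinv⟩ := ih (by omega)
    obtain ⟨q, hq⟩ := hdiv j hj
    set K := k (j + 1) with hK
    have hK2 : 2 ≤ K := hk2 _ hj
    have hpj := hp (j + 1) hj
    have hdv : ∀ i < j + 1, k i ∣ k j := fun i hi => dvd_chain hdiv j (by omega) i (by omega)
    have hdvK : ∀ i < j + 1, k i ∣ K := fun i hi => dvd_chain hdiv (j + 1) hj i (by omega)
    have hper : ∀ b, load k p r (j + 1) (b + k j) = load k p r (j + 1) b := load_periodic hdv
    have hperK : ∀ b, load k p r (j + 1) (b + K) = load k p r (j + 1) b := load_periodic hdvK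
    -- pass to the finer period
    have hN : (∑ b ∈ range K, if 0 < load k p r (j + 1) b then 1 else 0) =
        q * ∑ b ∈ range (k j), if 0 < load k p r (j + 1) b then 1 else 0 := by
      rw [hq]
      exact sum_periodic _ (fun b => by rw [hper]) q
    have hW : (∑ b ∈ range K, load k p r (j + 1) b) =
        q * ∑ b ∈ range (k j), load k p r (j + 1) b := by
      rw [hq]
      exact sum_periodic _ (fun b => by rw [hper]) q
    set N0 := ∑ b ∈ range (k j), if 0 < load k p r (j + 1) b then 1 else 0 with hN0
    set W0 := ∑ b ∈ range (k j), load k p r (j + 1) b with hW0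
    set N := ∑ b ∈ range K, if 0 < load k p r (j + 1) b then 1 else 0 with hNdef
    set W := ∑ b ∈ range K, load k p r (j + 1) b with hWdef
    have hinvK : 4 * C * N ^ 2 ≤ 8 * N * W + C * K ^ 2 := by
      rw [hN, hW, hq]
      have := Nat.mul_le_mul_left (q ^ 2) hinv
      nlinarith
    have hN1 : 1 ≤ N := by
      -- bin containing job 0 is nonempty
      have hmem : r 0 ∈ range K := by
        rw [Finset.mem_range]
        exact lt_of_lt_of_le (hr 0 (by omega)) (Nat.le_of_dvd (by omega) (hdvK 0 (by omega)))
      have hpos : 0 < load k p r (j + 1) (r 0) := by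
        unfold load
        apply Finset.sum_pos' (fun i _ => Nat.zero_le _)
        refine ⟨0, Finset.mem_range.2 (by omega), ?_⟩
        rw [Nat.mod_eq_of_lt (hr 0 (by omega))]
        simp [(hp 0 (by omega)).1]
      have := Finset.single_le_sum (f := fun b => if 0 < load k p r (j + 1) b then 1 else 0)
        (fun b _ => Nat.zero_le _) hmem
      simp only [hpos, if_true] at this
      exact this
    -- placing job j+1 with residue s
    have hupd : ∀ s, ∀ b, load k p (Function.update r (j + 1) s) (j + 2) b =
        load k p r (j + 1) b + if b % K = s then p (j + 1) else 0 := by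
      intro s b
      unfold load
      rw [Finset.sum_range_succ, Function.update_self]
      congr 1
      apply Finset.sum_congr rfl
      intro i hi
      rw [Finset.mem_range] at hi
      rw [Function.update_of_ne (by omega)]
    have hrupd : ∀ s < K, ∀ i < j + 2, Function.update r (j + 1) s i < k i := by
      intro s hs i hi
      by_cases h : i = j + 1
      · subst h; rw [Function.update_self]; exact hs
      · rw [Function.update_of_ne h]; exact hr i (by omega)
    have hmodK : ∀ b, load k p r (j + 1) b = load k p r (j + 1) (b % K) := by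
      intro b
      conv_lhs => rw [← Nat.mod_add_div b K]
      generalize b % K = x
      generalize b / K = y
      induction y with
      | zero => simp
      | succ y ih => rw [show x + K * (y + 1) = x + K * y + K by ring, hperK, ih]
    have hloadupd : ∀ s < K, load k p r (j + 1) s + p (j + 1) ≤ C →
        ∀ b, load k p (Function.update r (j + 1) s) (j + 2) b ≤ C := by
      intro s hs hle b
      rw [hupd]
      by_cases h : b % K = s
      · rw [if_pos h, hmodK b, h]; exact hle
      · rw [if_neg h, add_zero]; exact hload b
    have hWupd : ∀ s < K, ∑ b ∈ range K, load k p (Function.update r (j + 1) s) (j + 2) b =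
        W + p (j + 1) := by
      intro s hs
      simp only [hupd]
      rw [Finset.sum_add_distrib]
      congr 1
      have := sum_mod (k := K) (q := 1) (r := s) (c := p (j + 1)) hs
      rw [mul_one, one_mul] at this
      exact this
    by_cases hA : ∃ s < K, 0 < load k p r (j + 1) s ∧ load k p r (j + 1) s + p (j + 1) ≤ C
    · -- put the job into a nonempty class
      obtain ⟨s, hs, hpos, hle⟩ := hA
      refine ⟨Function.update r (j + 1) s, hrupd s hs, hloadupd s hs hle, ?_⟩
      have hNn : (∑ b ∈ range K,
          if 0 < load k p (Function.update r (j + 1) s) (j + 1 + 1) b then 1 else 0) = N := by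
        rw [hNdef]
        apply Finset.sum_congr rfl
        intro b hb
        rw [Finset.mem_range] at hb
        rw [hupd]
        by_cases h : b % K = s
        · rw [Nat.mod_eq_of_lt hb] at h
          subst h
          simp [hpos]
        · simp [h]
      rw [hNn, hWupd s hs]
      have : 8 * N * W ≤ 8 * N * (W + p (j + 1)) := by
        apply Nat.mul_le_mul_left; omega
      omega
    · push Not at hA
      -- every nonempty class is too full
      have hfull : N * (C - p (j + 1)) ≤ W := by
        rw [hNdef, hWdef, Finset.sum_mul]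
        apply Finset.sum_le_sum
        intro b hb
        rw [Finset.mem_range] at hb
        split_ifs with h
        · have := hA b hb h
          omega
        · omega
      by_cases hE : ∃ s < K, load k p r (j + 1) s = 0
      · obtain ⟨s, hs, h0⟩ := hE
        refine ⟨Function.update r (j + 1) s, hrupd s hs,
          hloadupd s hs (by rw [h0]; omega), ?_⟩
        have hNn : (∑ b ∈ range K,
            if 0 < load k p (Function.update r (j + 1) s) (j + 1 + 1) b then 1 else 0) = N + 1 := by
          have h1 : (∑ b ∈ range K,
            if 0 < load k p (Function.update r (j + 1) s) (j + 1 + 1) b then 1 else 0) =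
            ∑ b ∈ range K, ((if 0 < load k p r (j + 1) b then 1 else 0) +
              (if b % K = s then 1 else 0)) := by
            apply Finset.sum_congr rfl
            intro b hb
            rw [Finset.mem_range] at hb
            rw [hupd]
            by_cases h : b % K = s
            · rw [Nat.mod_eq_of_lt hb] at h
              subst h
              simp [h0, hpj.1, Nat.mod_eq_of_lt hb]
            · simp [h]
          rw [h1, Finset.sum_add_distrib]
          congr 1
          have := sum_mod (k := K) (q := 1) (r := s) (c := 1) hs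
          simpa using this
        rw [hNn, hWupd s hs]
        have := key_ineq C N W (p (j + 1)) K (by positivity) (by exact_mod_cast hN1)
          (by
            have h2 : ((N * (C - p (j + 1)) : ℕ) : ℤ) ≤ (W : ℤ) := by exact_mod_cast hfull
            rw [Nat.cast_mul, Nat.cast_sub hpj.2] at h2
            exact h2)
          (by exact_mod_cast hinvK)
        exact_mod_cast this
      · -- no empty class: contradiction with the density bound
        exfalso
        push Not at hE
        have hNK : N = K := by
          rw [hNdef]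
          have : ∀ b ∈ range K, (if 0 < load k p r (j + 1) b then 1 else 0) = 1 := by
            intro b hb
            rw [Finset.mem_range] at hb
            simp [Nat.pos_of_ne_zero (hE b hb)]
          rw [Finset.sum_congr rfl this]
          simp
        rw [hNK] at hinvK
        have h3 : 3 * C * K ≤ 8 * W := by
          have : K * (3 * C * K) ≤ K * (8 * W) := by nlinarith
          exact Nat.le_of_mul_le_mul_left this (by omega)
        have hWq := sum_load (p := p) hdvK hr
        rw [← hWdef] at hWq
        have hKq : (0 : ℚ) < K := by exact_mod_cast (by omega : 0 < K)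
        have h4 : (∑ i ∈ range (j + 2), (p i : ℚ) / k i) ≤ ∑ i ∈ range n, (p i : ℚ) / k i := by
          apply Finset.sum_le_sum_of_subset_of_nonneg
          · intro x hx
            rw [Finset.mem_range] at *
            omega
          · intro i _ _
            positivity
        rw [Finset.sum_range_succ] at h4
        have h5 : (0 : ℚ) < (p (j + 1) : ℚ) / k (j + 1) := by
          have : (0 : ℚ) < p (j + 1) := by exact_mod_cast hpj.1
          positivity
        have h6 : (3 : ℚ) * C * K ≤ 8 * W := by exact_mod_cast h3
        rw [hWq] at h6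
        have h7 : (3 : ℚ) * C ≤ 8 * ∑ i ∈ range (j + 1), (p i : ℚ) / k i := by
          have : (3 * C : ℚ) * K ≤ (8 * ∑ i ∈ range (j + 1), (p i : ℚ) / k i) * K := by
            linarith
          exact le_of_mul_le_mul_right this hKq
        linarith

/-- **Packing lemma.** Jobs of sizes at most `C` with periods at least `2` forming a divisibility
chain and total rate at most `3C/8` can be placed in residue classes with all loads at most `C`. -/
theorem pack (n C : ℕ) (k p : ℕ → ℕ) (hk2 : ∀ i < n, 2 ≤ k i)
    (hdiv : ∀ i, i + 1 < n → k i ∣ k (i + 1)) (hp : ∀ i < n, 0 < p i ∧ p i ≤ C)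
    (hD : 8 * ∑ i ∈ range n, (p i : ℚ) / k i ≤ 3 * C) :
    ∃ r : ℕ → ℕ, (∀ i < n, r i < k i) ∧ ∀ b, load k p r n b ≤ C := by
  rcases Nat.eq_zero_or_pos n with h | h
  · subst h
    refine ⟨fun _ => 0, fun i hi => absurd hi (Nat.not_lt_zero _), ?_⟩
    intro b
    simp [load]
  · obtain ⟨r, h1, h2, -⟩ := pack_step n C k p hk2 hdiv hp hD (n - 1) (by omega)
    rw [Nat.sub_add_cancel h] at h1 h2
    exact ⟨r, h1, h2⟩

end Pool.Agent.H80.Pin
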