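import Mathlib

set_option autoImplicit false

namespace Pool.Agent.H80.Pin

open Finset

theorem sched (n F : ℕ) (hn : 0 < n) (k p : ℕ → ℕ) (act : ℕ → ℕ → Prop)
    (hk : ∀ i < n, 0 < k i)
    (hper : ∀ i < n, ∀ j ≤ i, ∀ b, act (b + k i) j ↔ act b j)
    (hact : ∀ i < n, ∃ b, act b i)
    (hload : ∀ b, ∀ g : ℕ → ℕ, (∀ j < n, act b j → g j = p j) → (∀ j < n, ¬ act b j → g j = 0) →
      ∑ j ∈ range n, g j ≤ F) :
    ∃ S : ℕ → ℕ, (∀ t, S t < n) ∧ ∀ i < n, {t | S t = i}.Infinite ∧
      ∀ a b, a < b → S a = i → S b = i → (∀ c, a < c → c < b → S c ≠ i) →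
        ∑ t ∈ Ioc a b, p (S t) ≤ k i * F := by
  classical
  set A : ℕ → Prop := fun e => act (e / n) (e % n) with hA
  have hdm : ∀ B i, i < n → (B * n + i) / n = B ∧ (B * n + i) % n = i := by
    intro B i hi
    constructor
    · rw [mul_comm, Nat.mul_add_div hn, Nat.div_eq_of_lt hi, add_zero]
    · rw [mul_comm, Nat.mul_add_mod, Nat.mod_eq_of_lt hi]
  have hperq : ∀ i < n, ∀ q b, act (b + q * k i) i ↔ act b i := by
    intro i hi q
    induction q with
    | zero => intro b; simp
    | succ q ih =>
      intro b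
      rw [show b + (q + 1) * k i = (b + q * k i) + k i by ring, hper i hi i le_rfl, ih]
  have hmemA : ∀ B i, i < n → (A (B * n + i) ↔ act B i) := by
    intro B i hi
    simp only [hA]
    rw [(hdm B i hi).1, (hdm B i hi).2]
  have hbig : ∀ i < n, ∀ m, ∃ e, m < e ∧ A e ∧ e % n = i := by
    intro i hi m
    obtain ⟨B, hB⟩ := hact i hi
    refine ⟨(B + (m + 1) * k i) * n + i, ?_, ?_, ?_⟩
    · have h1 : 1 ≤ k i := hk i hi
      have h2 : (m + 1) * 1 * 1 ≤ (m + 1) * k i * n :=
        Nat.mul_le_mul (Nat.mul_le_mul_left _ h1) hn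
      nlinarith
    · rw [hmemA _ _ hi, hperq i hi]; exact hB
    · exact (hdm _ i hi).2
  have hinf : {e | A e}.Infinite := by
    rw [Set.infinite_iff_exists_gt]
    intro m
    obtain ⟨e, h1, h2, -⟩ := hbig 0 hn m
    exact ⟨e, h2, h1⟩
  have hmono : StrictMono (Nat.nth A) := Nat.nth_strictMono hinf
  have hmem : ∀ t, A (Nat.nth A t) := fun t => Nat.nth_mem_of_infinite hinf t
  have hsurj : ∀ e, A e → ∃ t, Nat.nth A t = e := by
    intro e he
    have : e ∈ Set.range (Nat.nth A) := by
      rw [Nat.range_nth_of_infinite hinf]; exact he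
    exact this
  refine ⟨fun t => Nat.nth A t % n, fun t => Nat.mod_lt _ hn, ?_⟩
  intro i hi
  refine ⟨?_, ?_⟩
  · rw [Set.infinite_iff_exists_gt]
    intro t
    obtain ⟨e, h1, h2, h3⟩ := hbig i hi (Nat.nth A t)
    obtain ⟨t', rfl⟩ := hsurj e h2
    exact ⟨t', h3, hmono.lt_iff_lt.1 h1⟩
  · intro a b hab ha hb hc
    simp only at ha hb hc
    -- the bin of the occurrence at `a`
    set B := Nat.nth A a / n with hB
    have hea : Nat.nth A a = B * n + i := by
      rw [hB, ← ha]; exact (Nat.div_add_mod' _ _).symm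
    have hactB : act B i := by
      rw [← hmemA B i hi, ← hea]; exact hmem a
    have hA' : A ((B + k i) * n + i) := by
      rw [hmemA _ _ hi, hper i hi i le_rfl]; exact hactB
    obtain ⟨t', ht'⟩ := hsurj _ hA'
    have hat' : a < t' := by
      rw [← hmono.lt_iff_lt, ht', hea]
      have h1 : 1 * 1 ≤ k i * n := Nat.mul_le_mul (hk i hi) hn
      nlinarith
    have hbt' : b ≤ t' := by
      by_contra hcon
      push Not at hcon
      apply hc t' hat' hcon
      rw [ht']; exact (hdm _ i hi).2
    have hnb : Nat.nth A b ≤ (B + k i) * n + i := by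
      rw [← ht']; exact hmono.monotone hbt'
    -- weights
    set w : ℕ → ℕ := fun e => if A e then p (e % n) else 0 with hw
    have h1 : ∑ t ∈ Ioc a b, p (Nat.nth A t % n) = ∑ t ∈ Ioc a b, w (Nat.nth A t) := by
      apply Finset.sum_congr rfl
      intro t _
      simp only [hw, hmem t, if_true]
    have h2 : ∑ t ∈ Ioc a b, w (Nat.nth A t) = ∑ e ∈ (Ioc a b).image (Nat.nth A), w e := by
      rw [Finset.sum_image]
      intro x _ y _ hxy
      exact hmono.injective hxy
    have h3 : ∑ e ∈ (Ioc a b).image (Nat.nth A), w e ≤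
        ∑ e ∈ Ioc (B * n + i) ((B + k i) * n + i), w e := by
      apply Finset.sum_le_sum_of_subset
      intro e he
      rw [Finset.mem_image] at he
      obtain ⟨t, ht, rfl⟩ := he
      rw [Finset.mem_Ioc] at ht ⊢
      refine ⟨?_, (hmono.monotone ht.2).trans hnb⟩
      rw [← hea]; exact hmono ht.1
    -- sums over initial segments
    have hW : ∀ c : ℕ, ∑ e ∈ range (c * n), w e = ∑ b ∈ range c, ∑ j ∈ range n, w (b * n + j) := by
      intro c
      induction c with
      | zero => simp
      | succ c ih =>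
        rw [Finset.sum_range_succ, ← ih, show (c + 1) * n = c * n + n by ring,
          Finset.sum_range_add]
    have hwval : ∀ B j, j < n → w (B * n + j) = if act B j then p j else 0 := by
      intro B j hj
      simp only [hw]
      rw [(hdm B j hj).2]
      by_cases h : act B j
      · rw [if_pos h, if_pos ((hmemA B j hj).2 h)]
      · rw [if_neg h, if_neg (fun h' => h ((hmemA B j hj).1 h'))]
    have hbin : ∀ b, ∑ j ∈ range n, w (b * n + j) ≤ F := by
      intro b
      apply hload b
      · intro j hj h; rw [hwval b j hj, if_pos h]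
      · intro j hj h; rw [hwval b j hj, if_neg h]
    have h4 : ∑ e ∈ Ioc (B * n + i) ((B + k i) * n + i), w e + ∑ e ∈ range (B * n + i + 1), w e =
        ∑ e ∈ range ((B + k i) * n + i + 1), w e := by
      have hle : B * n + i + 1 ≤ (B + k i) * n + i + 1 := by nlinarith [Nat.zero_le (k i * n)]
      rw [← Finset.sum_range_add_sum_Ico w hle, add_comm]
      have hII : Ioc (B * n + i) ((B + k i) * n + i) =
          Ico (B * n + i + 1) ((B + k i) * n + i + 1) := by
        ext x
        rw [Finset.mem_Ioc, Finset.mem_Ico]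
        omega
      rw [hII]
    have h5 : ∑ e ∈ range (B * n + i + 1), w e =
        ∑ e ∈ range (B * n), w e + ∑ j ∈ range (i + 1), w (B * n + j) := by
      rw [add_assoc, Finset.sum_range_add]
    have h6 : ∑ e ∈ range ((B + k i) * n + i + 1), w e =
        ∑ e ∈ range ((B + k i) * n), w e + ∑ j ∈ range (i + 1), w ((B + k i) * n + j) := by
      rw [add_assoc, Finset.sum_range_add]
    have h7 : ∑ j ∈ range (i + 1), w ((B + k i) * n + j) = ∑ j ∈ range (i + 1), w (B * n + j) := by
      apply Finset.sum_congr rfl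
      intro j hj
      rw [Finset.mem_range] at hj
      have hjn : j < n := by omega
      rw [hwval _ _ hjn, hwval _ _ hjn]
      have := hper i hi j (by omega) B
      by_cases h : act B j
      · rw [if_pos h, if_pos (this.2 h)]
      · rw [if_neg h, if_neg (fun h' => h (this.1 h'))]
    have h8 : ∑ e ∈ range ((B + k i) * n), w e ≤ ∑ e ∈ range (B * n), w e + k i * F := by
      rw [hW, hW, Finset.sum_range_add]
      apply Nat.add_le_add_left
      calc ∑ x ∈ range (k i), ∑ j ∈ range n, w ((B + x) * n + j) ≤ ∑ x ∈ range (k i), F :=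
            Finset.sum_le_sum (fun x _ => hbin _)
        _ = k i * F := by simp
    rw [h1, h2]
    omega

end Pool.Agent.H80.Pin
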