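import Mathlib
import Pool.Agent.H80.PinPack
import Pool.Agent.H80.PinSched

set_option autoImplicit false

namespace Pool.Agent.H80.Pin

open Finset

/-- Sufficiency of the criterion. -/
theorem suff (n : ℕ) (hn : 0 < n) (f p : ℕ → ℕ) (hf : ∀ i < n, 0 < f i) (hp : ∀ i < n, 0 < p i)
    (hdiv : ∀ i, i + 1 < n → f i ∣ f (i + 1))
    (hdens : 8 * ∑ i ∈ range n, (p i : ℚ) / f i ≤ 3)
    (hcrit : ∀ j < n, f j ≠ f 0 → (∑ i ∈ range n, if f i = f 0 then p i else 0) + p j ≤ f 0) :
    ∃ S : ℕ → ℕ, (∀ t, S t < n) ∧ ∀ i < n, {t | S t = i}.Infinite ∧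
      ∀ a b, a < b → S a = i → S b = i → (∀ c, a < c → c < b → S c ≠ i) →
        ∑ t ∈ Ioc a b, p (S t) ≤ f i := by
  classical
  set F := f 0 with hF
  have hF0 : 0 < F := hf 0 hn
  have hchain := dvd_chain hdiv
  have hmono : ∀ j < n, ∀ i ≤ j, f i ≤ f j := fun j hj i hi =>
    Nat.le_of_dvd (hf j hj) (hchain j hj i hi)
  -- the number of jobs of smallest frequency
  obtain ⟨m, hm1, hmn, hmF, hmF'⟩ : ∃ m, 1 ≤ m ∧ m ≤ n ∧ (∀ i < m, f i = F) ∧
      ∀ i, m ≤ i → i < n → f i ≠ F := by
    by_cases h : ∃ i, i < n ∧ f i ≠ F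
    · refine ⟨Nat.find h, ?_, (Nat.find_spec h).1.le, ?_, ?_⟩
      · rw [Nat.one_le_iff_ne_zero]
        intro h0
        have := (Nat.find_spec h).2
        rw [h0] at this
        exact this hF.symm
      · intro i hi
        by_contra hcon
        exact Nat.find_min h hi ⟨lt_trans hi (Nat.find_spec h).1, hcon⟩
      · intro i hi hin hcon
        have h1 := (Nat.find_spec h).2
        apply h1
        have h2 := hmono i hin _ hi
        have h3 := hmono _ (Nat.find_spec h).1 0 (Nat.zero_le _)
        omega
    · push Not at h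
      exact ⟨n, hn, le_rfl, h, fun i hi hin => absurd hin (by omega)⟩
  set P := ∑ i ∈ range m, p i with hP
  have hPsum : (∑ i ∈ range n, if f i = F then p i else 0) = P := by
    obtain ⟨d, rfl⟩ := Nat.exists_eq_add_of_le hmn
    rw [Finset.sum_range_add, hP]
    have h1 : (∑ x ∈ range d, if f (m + x) = F then p (m + x) else 0) = 0 := by
      apply Finset.sum_eq_zero
      intro x hx
      rw [Finset.mem_range] at hx
      rw [if_neg (hmF' _ (by omega) (by omega))]
    rw [h1, add_zero]
    apply Finset.sum_congr rfl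
    intro x hx
    rw [Finset.mem_range] at hx
    rw [if_pos (hmF x hx)]
  rw [hPsum] at hcrit
  -- periods
  have hkF : ∀ i < n, f i / F * F = f i := fun i hi =>
    Nat.div_mul_cancel (hchain i hi 0 (Nat.zero_le _))
  have hkpos : ∀ i < n, 0 < f i / F := by
    intro i hi
    apply Nat.div_pos (hmono i hi 0 (Nat.zero_le _)) hF0
  -- the density splits
  have hFq : (0 : ℚ) < F := by exact_mod_cast hF0
  have hsplit : (∑ i ∈ range n, (p i : ℚ) / f i) =
      P / F + ∑ i ∈ range (n - m), (p (m + i) : ℚ) / f (m + i) := by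
    conv_lhs => rw [← Nat.add_sub_cancel' hmn]
    rw [Finset.sum_range_add, hP]
    congr 1
    push_cast
    rw [Finset.sum_div]
    apply Finset.sum_congr rfl
    intro x hx
    rw [Finset.mem_range] at hx
    rw [hmF x hx]
  have hPF : (8 : ℚ) * P ≤ 3 * F := by
    have h1 : (0 : ℚ) ≤ ∑ i ∈ range (n - m), (p (m + i) : ℚ) / f (m + i) :=
      Finset.sum_nonneg (fun i _ => by positivity)
    rw [hsplit] at hdens
    have h2 : (8 : ℚ) * (P / F) ≤ 3 := by linarith
    rw [← mul_div_assoc, div_le_iff₀ hFq] at h2
    exact h2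
  have hPleF : P ≤ F := by
    have : (P : ℚ) ≤ F := by
      have hP0 : (0 : ℚ) ≤ P := by positivity
      linarith
    exact_mod_cast this
  obtain ⟨r, hr, hload⟩ := pack (n - m) (F - P) (fun i => f (m + i) / F) (fun i => p (m + i))
    (by
      intro i hi
      have h1 := hmF' (m + i) (by omega) (by omega)
      have h2 := hkF (m + i) (by omega)
      have h3 := hkpos (m + i) (by omega)
      by_contra hcon
      have h4 : f (m + i) / F = 1 := by
        omega
      rw [h4, one_mul] at h2
      exact h1 h2.symm)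
    (by
      intro i hi
      have h1 := hdiv (m + i) (by omega)
      have h2 := hkF (m + i) (by omega)
      have h3 := hkF (m + i + 1) (by omega)
      rw [← h2, ← h3] at h1
      exact Nat.dvd_of_mul_dvd_mul_right hF0 h1)
    (by
      intro i hi
      refine ⟨hp _ (by omega), ?_⟩
      have := hcrit (m + i) (by omega) (hmF' _ (by omega) (by omega))
      omega)
    (by
      have h1 : ∀ i ∈ range (n - m), (p (m + i) : ℚ) / ((f (m + i) / F : ℕ) : ℚ) =
          F * ((p (m + i) : ℚ) / f (m + i)) := by
        intro i hi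
        rw [Finset.mem_range] at hi
        have h2 := hkF (m + i) (by omega)
        have h3 := hkpos (m + i) (by omega)
        have h4 : (f (m + i) : ℚ) = ((f (m + i) / F : ℕ) : ℚ) * F := by exact_mod_cast h2.symm
        have h5 : ((f (m + i) / F : ℕ) : ℚ) ≠ 0 := by exact_mod_cast h3.ne'
        rw [h4]
        field_simp
      rw [Finset.sum_congr rfl h1, ← Finset.mul_sum]
      rw [hsplit] at hdens
      set X := ∑ i ∈ range (n - m), (p (m + i) : ℚ) / f (m + i) with hX
      rw [Nat.cast_sub hPleF]
      have h6 : (8 : ℚ) * (P / F + X) * F ≤ 3 * F := mul_le_mul_of_nonneg_right hdens hFq.le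
      have h7 : (8 : ℚ) * (P / F + X) * F = 8 * P + 8 * (F * X) := by
        field_simp
      rw [h7] at h6
      have hP0 : (0 : ℚ) ≤ P := by positivity
      linarith)
  -- build the schedule
  obtain ⟨S, hS1, hS2⟩ := sched n F hn (fun i => f i / F) p
    (fun b j => j < m ∨ b % (f j / F) = r (j - m))
    hkpos
    (by
      intro i hi j hj b
      by_cases h : j < m
      · simp [h]
      · simp only [h, false_or]
        have h1 : f j / F ∣ f i / F := by
          have h1 := hchain i hi j hj
          have h2 := hkF i hi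
          have h3 := hkF j (by omega)
          rw [← h2, ← h3] at h1
          exact Nat.dvd_of_mul_dvd_mul_right hF0 h1
        rw [mod_periodic h1])
    (by
      intro i hi
      by_cases h : i < m
      · exact ⟨0, Or.inl h⟩
      · refine ⟨r (i - m), Or.inr ?_⟩
        have := hr (i - m) (by omega)
        rw [Nat.add_sub_cancel' (by omega : m ≤ i)] at this
        exact Nat.mod_eq_of_lt this)
    (by
      intro b g hg1 hg2
      conv_lhs => rw [← Nat.add_sub_cancel' hmn]
      rw [Finset.sum_range_add]
      have h1 : ∑ x ∈ range m, g x = P := by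
        rw [hP]
        apply Finset.sum_congr rfl
        intro x hx
        rw [Finset.mem_range] at hx
        exact hg1 x (by omega) (Or.inl hx)
      have h2 : ∑ x ∈ range (n - m), g (m + x) =
          load (fun i => f (m + i) / F) (fun i => p (m + i)) r (n - m) b := by
        unfold load
        apply Finset.sum_congr rfl
        intro x hx
        rw [Finset.mem_range] at hx
        by_cases h : b % (f (m + x) / F) = r x
        · rw [if_pos h]
          apply hg1 _ (by omega)
          right
          rw [Nat.add_sub_cancel_left]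
          exact h
        · rw [if_neg h]
          apply hg2 _ (by omega)
          rintro (h' | h')
          · omega
          · rw [Nat.add_sub_cancel_left] at h'
            exact h h'
      rw [h1, h2]
      have := hload b
      omega)
  refine ⟨S, hS1, fun i hi => ⟨(hS2 i hi).1, ?_⟩⟩
  intro a b h1 h2 h3 h4
  have := (hS2 i hi).2 a b h1 h2 h3 h4
  simp only [hkF i hi] at this
  exact this

/-- Necessity of the criterion. -/
theorem nec (n : ℕ) (hn : 0 < n) (f p : ℕ → ℕ) (S : ℕ → ℕ)
    (hfeas : ∀ i < n, {t | S t = i}.Infinite ∧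
      ∀ a b, a < b → S a = i → S b = i → (∀ c, a < c → c < b → S c ≠ i) →
        ∑ t ∈ Ioc a b, p (S t) ≤ f i) (j : ℕ) (hj : j < n) (hjf : f j ≠ f 0) :
    (∑ i ∈ range n, if f i = f 0 then p i else 0) + p j ≤ f 0 := by
  classical
  -- first occurrences
  have hocc : ∀ i < n, ∀ m, ∃ t, m < t ∧ S t = i := by
    intro i hi m
    obtain ⟨t, ht, hmt⟩ := (Set.infinite_iff_exists_gt.1 (hfeas i hi).1) m
    exact ⟨t, hmt, ht⟩
  choose! o ho1 ho2 using hocc
  -- `o i m` occurrence of `i` after `m`
  set T := (range n).sup (fun i => o i 0) with hT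
  set t := o j T with ht
  have htS : S t = j := ho2 j hj T
  have htT : T < t := ho1 j hj T
  have hoT : ∀ i < n, o i 0 < t := fun i hi =>
    lt_of_le_of_lt (Finset.le_sup (f := fun i => o i 0) (Finset.mem_range.2 hi)) htT
  -- next occurrences after `t`
  have hex : ∀ i < n, ∃ b, t < b ∧ S b = i := fun i hi => ⟨o i t, ho1 i hi t, ho2 i hi t⟩
  have hb : ∀ i < n, ∃ b, t < b ∧ S b = i ∧ ∀ c, t < c → c < b → S c ≠ i := by
    intro i hi
    refine ⟨Nat.find (hex i hi), (Nat.find_spec (hex i hi)).1, (Nat.find_spec (hex i hi)).2, ?_⟩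
    intro c h1 h2 h3
    exact Nat.find_min (hex i hi) h2 ⟨h1, h3⟩
  choose! nb hnb1 hnb2 hnb3 using hb
  -- the set of smallest-frequency jobs
  set M := (range n).filter (fun i => f i = f 0) with hM
  have h0M : (0 : ℕ) ∈ M := by
    rw [hM, Finset.mem_filter]; exact ⟨Finset.mem_range.2 hn, rfl⟩
  obtain ⟨i, hiM, himax⟩ := Finset.exists_max_image M nb ⟨0, h0M⟩
  have hi : i < n := by
    rw [hM, Finset.mem_filter, Finset.mem_range] at hiM; exact hiM.1
  have hif : f i = f 0 := by
    rw [hM, Finset.mem_filter] at hiM; exact hiM.2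
  -- previous occurrence of `i` before `t`
  obtain ⟨a, hat, haS, ha3⟩ : ∃ a, a < t ∧ S a = i ∧ ∀ c, a < c → c < t → S c ≠ i := by
    set Q := (range t).filter (fun c => S c = i) with hQ
    have hne : Q.Nonempty := ⟨o i 0, by
      rw [hQ, Finset.mem_filter, Finset.mem_range]; exact ⟨hoT i hi, ho2 i hi 0⟩⟩
    obtain ⟨a, haQ, hamax⟩ := Finset.exists_max_image Q id hne
    rw [hQ, Finset.mem_filter, Finset.mem_range] at haQ
    refine ⟨a, haQ.1, haQ.2, ?_⟩
    intro c h1 h2 h3
    have : c ∈ Q := by
      rw [hQ, Finset.mem_filter, Finset.mem_range]; exact ⟨h2, h3⟩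
    have := hamax c this
    simp only [id] at this
    omega
  have hgap := (hfeas i hi).2 a (nb i) (by have := hnb1 i hi; omega) haS (hnb2 i hi) (by
    intro c h1 h2
    rcases lt_trichotomy c t with h | h | h
    · exact ha3 c h1 h
    · subst h
      rw [htS]
      rintro rfl
      exact hjf hif
    · exact hnb3 i hi c h h2)
  rw [hif] at hgap
  refine le_trans ?_ hgap
  -- the window contains `t` and all `nb i'`
  have hsub : insert t (M.image nb) ⊆ Ioc a (nb i) := by
    intro x hx
    rw [Finset.mem_insert, Finset.mem_image] at hx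
    rw [Finset.mem_Ioc]
    rcases hx with rfl | ⟨y, hy, rfl⟩
    · exact ⟨hat, (hnb1 i hi).le⟩
    · have hyn : y < n := by
        rw [hM, Finset.mem_filter, Finset.mem_range] at hy; exact hy.1
      exact ⟨hat.trans (hnb1 y hyn), himax y hy⟩
  have htn : t ∉ M.image nb := by
    rw [Finset.mem_image]
    rintro ⟨y, hy, hyt⟩
    have hyn : y < n := by
      rw [hM, Finset.mem_filter, Finset.mem_range] at hy; exact hy.1
    have := hnb1 y hyn
    omega
  calc (∑ i ∈ range n, if f i = f 0 then p i else 0) + p j
      = ∑ x ∈ insert t (M.image nb), p (S x) := by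
        rw [Finset.sum_insert htn, htS, Finset.sum_image, add_comm]
        · congr 1
          rw [← Finset.sum_filter]
          apply Finset.sum_congr rfl
          intro y hy
          have hyn : y < n := by
            rw [Finset.mem_filter, Finset.mem_range] at hy; exact hy.1
          rw [hnb2 y hyn]
        · intro x hx y hy hxy
          have hxn : x < n := by
            rw [Finset.mem_coe, hM, Finset.mem_filter, Finset.mem_range] at hx; exact hx.1
          have hyn : y < n := by
            rw [Finset.mem_coe, hM, Finset.mem_filter, Finset.mem_range] at hy; exact hy.1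
          rw [← hnb2 x hxn, ← hnb2 y hyn, hxy]
    _ ≤ ∑ x ∈ Ioc a (nb i), p (S x) := Finset.sum_le_sum_of_subset hsub

end Pool.Agent.H80.Pin
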