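import Mathlib
import Pool.Agent.H80.PinTM
import Pool.Agent.H80.PinDefs

set_option autoImplicit false

namespace Pool.Agent.H80.Pin

open Turing Computability

/-- the function computed by the machine -/
def run (F : List Bool) : List Bool → List (ℕ × ℕ) → Bool
  | _, [] => true
  | R, j :: L =>
    if (subL (decide (encodeNat j.1 = F)) (encodeNat j.2) R false).2 then false
    else run F (subL (decide (encodeNat j.1 = F)) (encodeNat j.2) R false).1 L

theorem subL_length (e : Bool) : ∀ (p R : List Bool) (c : Bool),
    (subL e p R c).1.length ≤ p.length + R.length := by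
  intro p
  induction p with
  | nil =>
    intro R
    induction R with
    | nil => intro c; simp [subL]
    | cons y R ih =>
      intro c
      have := ih (bor y false c)
      simp only [subL, List.length_cons, List.length_nil] at this ⊢
      omega
  | cons b p ih =>
    intro R c
    cases R with
    | nil =>
      have := ih [] (bor false b c)
      simp only [subL, List.length_cons, List.length_nil] at this ⊢
      omega
    | cons y R =>
      have := ih R (bor y b c)
      simp only [subL, List.length_cons] at this ⊢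
      omega

theorem encodeJobs_cons (j : ℕ × ℕ) (L : List (ℕ × ℕ)) :
    encodeJobs (j :: L) = (encodeNat j.1).map Γ'.bit ++
      Γ'.comma :: ((encodeNat j.2).map Γ'.bit ++ Γ'.ket :: encodeJobs L) := by
  simp [encodeJobs, encodeJob]

/-- final configuration -/
abbrev fcf (b : Bool) : TM2.Cfg Sym Lab St := ⟨none, st0, stks [] [] [] [] [b]⟩

/-- processing the job list from label `sub` given the outcome of the frequency comparison -/
theorem sub_phase (j : ℕ × ℕ) (L : List (ℕ × ℕ)) (F R : List Bool) (s : St) (B K : ℕ)
    (hF : F.length ≤ B)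
    (hR : R.length + (encodeNat j.2).length + (encodeJobs L).length + 2 ≤ B)
    (he : s.e = decide (encodeNat j.1 = F)) (hc : s.c = false)
    (ih : ∀ R s, R.length + (encodeJobs L).length ≤ B → ∃ n ≤ K, Rch n
      (cf Lab.nxt s (encodeJobs L) F R [] []) (fcf (run F R L))) :
    ∃ n ≤ K + 4 * B + 10, Rch n
      (cf Lab.sub s ((encodeNat j.2).map Γ'.bit ++ Γ'.ket :: encodeJobs L) F R [] [])
      (fcf (run F R (j :: L))) := by
  obtain ⟨s', n, hn, h1, h2, h3⟩ := sub_loop Γ'.ket rfl (encodeJobs L) F [] s.e
    (encodeNat j.2) R [] s rfl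
  have hlen := subL_length (decide (encodeNat j.1 = F)) (encodeNat j.2) R false
  rw [hc, he] at h2 h3
  rw [List.append_nil] at h3
  set z := subL (decide (encodeNat j.1 = F)) (encodeNat j.2) R false with hz
  by_cases hb : z.2 = true
  · have hrun : run F R (j :: L) = false := by
      simp only [run, ← hz, hb, if_true]
    rw [hrun]
    rw [hb] at h3
    have hok := h2 hb
    obtain ⟨n', hn', h4⟩ := fin_loop (2 * B) (encodeJobs L) F [] z.1.reverse s' (by
      simp only [List.length_nil, List.length_reverse]
      omega)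
    rw [hok] at h4
    refine ⟨n + n', by omega, ?_⟩
    exact Rch.trans h3 h4
  · rw [Bool.not_eq_true] at hb
    have hrun : run F R (j :: L) = run F z.1 L := by
      simp only [run, ← hz, hb]
      simp
    rw [hrun]
    rw [hb] at h3
    obtain ⟨s'', h5⟩ := rst_loop (encodeJobs L) F [] z.1.reverse [] s'
    rw [List.reverse_reverse, List.append_nil, List.length_reverse] at h5
    obtain ⟨n'', hn'', h6⟩ := ih z.1 s'' (by omega)
    refine ⟨n + (z.1.length + 1) + n'', by omega, ?_⟩
    exact Rch.trans (Rch.trans h3 h5) h6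

theorem main_loop (F : List Bool) (B : ℕ) (hF : F.length ≤ B) : ∀ (L : List (ℕ × ℕ))
    (R : List Bool) (s : St), R.length + (encodeJobs L).length ≤ B →
    ∃ n ≤ (L.length + 1) * (8 * B + 20), Rch n
      (cf Lab.nxt s (encodeJobs L) F R [] []) (fcf (run F R L)) := by
  intro L
  induction L with
  | nil =>
    intro R s hR
    obtain ⟨n, hn, h⟩ := fin_loop (2 * B) [] F R [] { s with x := none, ok := true } (by
      simp only [List.length_nil]
      omega)
    refine ⟨n + 1, by simp; omega, Rch.cons ?_ h⟩
    simp [stp, cf, TM2.step, prog, TM2.stepAux, encodeJobs]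
  | cons j L ih =>
    intro R s hR
    rw [encodeJobs_cons] at hR ⊢
    simp only [List.length_append, List.length_map, List.length_cons] at hR
    -- nxt
    have hne : ∃ x l, (encodeNat j.1).map Γ'.bit ++
        Γ'.comma :: ((encodeNat j.2).map Γ'.bit ++ Γ'.ket :: encodeJobs L) = x :: l := by
      cases h : (encodeNat j.1).map Γ'.bit with
      | nil => exact ⟨_, _, rfl⟩
      | cons a b => exact ⟨a, _, rfl⟩
    obtain ⟨x, l, hxl⟩ := hne
    have h0 : stp (cf Lab.nxt s ((encodeNat j.1).map Γ'.bit ++
        Γ'.comma :: ((encodeNat j.2).map Γ'.bit ++ Γ'.ket :: encodeJobs L)) F R [] []) =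
        some (cf Lab.cmp { s with x := some x, e := true } ((encodeNat j.1).map Γ'.bit ++
        Γ'.comma :: ((encodeNat j.2).map Γ'.bit ++ Γ'.ket :: encodeJobs L)) F R [] []) := by
      rw [hxl]
      simp [stp, cf, TM2.step, prog, TM2.stepAux]
    obtain ⟨s1, n1, hn1, he1, h1⟩ := cmp_loop Γ'.comma rfl
      ((encodeNat j.2).map Γ'.bit ++ Γ'.ket :: encodeJobs L) R [] (encodeNat j.1) F []
      { s with x := some x, e := true }
    rw [List.append_nil] at h1
    obtain ⟨s2, he2, hc2, h2⟩ := rstF_loop
      ((encodeNat j.2).map Γ'.bit ++ Γ'.ket :: encodeJobs L) R [] s1.e F.reverse [] s1 rfl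
    rw [List.reverse_reverse, List.append_nil, List.length_reverse] at h2
    obtain ⟨n3, hn3, h3⟩ := sub_phase j L F R s2 B ((L.length + 1) * (8 * B + 20)) hF
      (by omega) (by rw [he2, he1]; simp) hc2 ih
    refine ⟨(n1 + (F.length + 1) + n3) + 1, ?_, ?_⟩
    · simp only [List.length_cons]
      have : (L.length + 1 + 1) * (8 * B + 20) = (L.length + 1) * (8 * B + 20) + (8 * B + 20) := by
        ring
      rw [this]
      omega
    · exact Rch.cons h0 (Rch.trans (Rch.trans h1 h2) h3)

theorem full_run (j : ℕ × ℕ) (L : List (ℕ × ℕ)) (B : ℕ) (hB : (encodeJobs (j :: L)).length ≤ B) :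
    ∃ n ≤ (L.length + 1 + 1) * (8 * B + 20), Rch n
      (cf Lab.rd st0 (encodeJobs (j :: L)) [] [] [] [])
      (fcf (run (encodeNat j.1) (encodeNat j.1) (j :: L))) := by
  rw [encodeJobs_cons] at hB ⊢
  simp only [List.length_append, List.length_map, List.length_cons] at hB
  obtain ⟨s1, h1⟩ := rd_loop Γ'.comma rfl
    ((encodeNat j.2).map Γ'.bit ++ Γ'.ket :: encodeJobs L) [] [] [] (encodeNat j.1) [] st0
  rw [List.append_nil] at h1
  obtain ⟨s2, he2, hc2, h2⟩ := dup_loop
    ((encodeNat j.2).map Γ'.bit ++ Γ'.ket :: encodeJobs L) [] (encodeNat j.1).reverse [] [] s1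
  rw [List.reverse_reverse, List.append_nil, List.length_reverse] at h2
  obtain ⟨n3, hn3, h3⟩ := sub_phase j L (encodeNat j.1) (encodeNat j.1) s2 B
    ((L.length + 1) * (8 * B + 20)) (by omega) (by omega) (by rw [he2]; simp) hc2
    (main_loop (encodeNat j.1) B (by omega) L)
  refine ⟨_, ?_, Rch.trans (Rch.trans h1 h2) h3⟩
  have : (L.length + 1 + 1) * (8 * B + 20) = (L.length + 1) * (8 * B + 20) + (8 * B + 20) := by
    ring
  rw [this]
  omega

theorem length_le_encodeJobs (L : List (ℕ × ℕ)) : L.length ≤ (encodeJobs L).length := by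
  induction L with
  | nil => simp
  | cons j L ih =>
    rw [encodeJobs_cons]
    simp only [List.length_append, List.length_map, List.length_cons]
    omega

/-- Polynomial-time computability of the run of the machine. -/
theorem polyTime {α : Type} (g : α → List (ℕ × ℕ)) (hg : ∀ a, g a ≠ []) (A : α → Bool)
    (hA : ∀ a j L, g a = j :: L → A a = run (encodeNat j.1) (encodeNat j.1) (j :: L)) :
    Nonempty (TM2ComputableInPolyTime (fun a => encodeJobs (g a)) encodeBool A) := by
  have key : ∀ a, ∃ n ≤ ((Polynomial.X + 1) * (8 * Polynomial.X + 20) : Polynomial ℕ).eval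
      (encodeJobs (g a)).length, Rch n (cf Lab.rd st0 (encodeJobs (g a)) [] [] [] [])
      (fcf (A a)) := by
    intro a
    obtain ⟨j, L, hjL⟩ := List.exists_cons_of_ne_nil (hg a)
    rw [hA a j L hjL, hjL]
    obtain ⟨n, hn, h⟩ := full_run j L (encodeJobs (j :: L)).length le_rfl
    refine ⟨n, hn.trans ?_, h⟩
    have h1 := length_le_encodeJobs (j :: L)
    simp only [List.length_cons] at h1
    simp only [Polynomial.eval_mul, Polynomial.eval_add, Polynomial.eval_X, Polynomial.eval_one,
      Polynomial.eval_ofNat]
    apply Nat.mul_le_mul_right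
    omega
  choose n hn hr using key
  refine ⟨{ tm := tm, inputAlphabet := Equiv.refl _, outputAlphabet := Equiv.refl _,
            time := (Polynomial.X + 1) * (8 * Polynomial.X + 20), outputsFun := ?_ }⟩
  intro a
  refine { steps := n a, evals_in_steps := ?_, steps_le_m := hn a }
  have h1 : initList tm (List.map (Equiv.refl (tm.Γ tm.k₀)).invFun (encodeJobs (g a))) =
      cf Lab.rd st0 (encodeJobs (g a)) [] [] [] [] := by
    have : List.map (Equiv.refl (tm.Γ tm.k₀)).invFun (encodeJobs (g a)) = encodeJobs (g a) := by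
      exact List.map_id _
    rw [this]
    unfold initList cf
    congr 1
    funext k
    cases k <;> rfl
  have h2 : haltList tm (List.map (Equiv.refl (tm.Γ tm.k₁)).invFun (encodeBool (A a))) =
      fcf (A a) := by
    have : List.map (Equiv.refl (tm.Γ tm.k₁)).invFun (encodeBool (A a)) = [A a] := rfl
    rw [this]
    unfold haltList fcf
    congr 1
    funext k
    cases k <;> rfl
  have h3 := hr a
  unfold Rch at h3
  rw [← h1, ← h2] at h3
  exact h3

end Pool.Agent.H80.Pin
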