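import Mathlib
import Pool.Agent.H80.PinRun
import Pool.Agent.H80.PinMain

set_option autoImplicit false

namespace Pool.Agent.H80.Pin

open Turing Computability

/-- value of a little-endian digit list -/
def val : List Bool → ℕ
  | [] => 0
  | b :: l => b.toNat + 2 * val l

theorem val_lt (l : List Bool) : val l < 2 ^ l.length := by
  induction l with
  | nil => simp [val]
  | cons b l ih =>
    simp only [val, List.length_cons, pow_succ]
    cases b <;> simp <;> omega

theorem val_encodePosNum (n : PosNum) : val (encodePosNum n) = (n : ℕ) := by
  induction n with
  | one => simp [encodePosNum, val]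
  | bit1 n ih => rw [encodePosNum, val, ih]; simp [PosNum.cast_bit1]; ring
  | bit0 n ih => rw [encodePosNum, val, ih]; simp [PosNum.cast_bit0]; ring

theorem val_encodeNat (n : ℕ) : val (encodeNat n) = n := by
  unfold encodeNat encodeNum
  conv_rhs => rw [← Num.to_of_nat n]
  cases h : (n : Num) with
  | zero => simp [val]
  | pos m => exact val_encodePosNum m

theorem encodeNat_inj {m n : ℕ} : encodeNat m = encodeNat n ↔ m = n := by
  constructor
  · intro h
    rw [← val_encodeNat m, h, val_encodeNat]
  · rintro rfl; rfl

theorem subL_snd (e : Bool) : ∀ (p R : List Bool) (c : Bool),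
    (subL e p R c).2 = (subL true p R c).2 := by
  intro p
  induction p with
  | nil =>
    intro R
    induction R with
    | nil => intro c; simp [subL]
    | cons y R ih => intro c; simp only [subL]; exact ih _
  | cons b p ih =>
    intro R c
    cases R with
    | nil => simp only [subL]; exact ih _ _
    | cons y R => simp only [subL]; exact ih _ _

theorem subL_false : ∀ (p R : List Bool) (c : Bool), val (subL false p R c).1 = val R := by
  intro p
  induction p with
  | nil =>
    intro R
    induction R with
    | nil => intro c; simp [subL]
    | cons y R ih => intro c; simp only [subL, val, ih, dig]; simp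
  | cons b p ih =>
    intro R c
    cases R with
    | nil => simp only [subL, val, ih, dig]; simp
    | cons y R => simp only [subL, val, ih, dig]; simp

theorem digit_eq (y b c : Bool) :
    (dig true y b c).toNat + b.toNat + c.toNat = y.toNat + 2 * (bor y b c).toNat := by
  cases y <;> cases b <;> cases c <;> rfl

theorem subL_true : ∀ (p R : List Bool) (c : Bool),
    val (subL true p R c).1 + val p + c.toNat =
      val R + 2 ^ (subL true p R c).1.length * (subL true p R c).2.toNat := by
  intro p
  induction p with
  | nil =>
    intro R
    induction R with
    | nil => intro c; simp [subL, val]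
    | cons y R ih =>
      intro c
      have h1 := ih (bor y false c)
      have h2 := digit_eq y false c
      simp only [subL, val, List.length_cons, pow_succ] at h1 ⊢
      simp only [Bool.toNat_false] at h2
      have h3 : 2 ^ (subL true [] R (bor y false c)).1.length * 2 *
        (subL true [] R (bor y false c)).2.toNat =
        2 * (2 ^ (subL true [] R (bor y false c)).1.length *
        (subL true [] R (bor y false c)).2.toNat) := by ring
      rw [h3]
      omega
  | cons b p ih =>
    intro R c
    cases R with
    | nil =>
      have h1 := ih [] (bor false b c)
      have h2 := digit_eq false b c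
      simp only [subL, val, List.length_cons, pow_succ] at h1 ⊢
      simp only [Bool.toNat_false] at h2
      have h3 : 2 ^ (subL true p [] (bor false b c)).1.length * 2 *
        (subL true p [] (bor false b c)).2.toNat =
        2 * (2 ^ (subL true p [] (bor false b c)).1.length *
        (subL true p [] (bor false b c)).2.toNat) := by ring
      rw [h3]
      omega
    | cons y R =>
      have h1 := ih R (bor y b c)
      have h2 := digit_eq y b c
      simp only [subL, val, List.length_cons, pow_succ] at h1 ⊢
      have h3 : 2 ^ (subL true p R (bor y b c)).1.length * 2 *
        (subL true p R (bor y b c)).2.toNat =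
        2 * (2 ^ (subL true p R (bor y b c)).1.length *
        (subL true p R (bor y b c)).2.toNat) := by ring
      rw [h3]
      omega

theorem subL_borrow (e : Bool) (p R : List Bool) :
    (subL e p R false).2 = true ↔ val R < val p := by
  rw [subL_snd]
  have h1 := subL_true p R false
  have h2 := val_lt (subL true p R false).1
  cases h : (subL true p R false).2
  · rw [h] at h1
    simp at h1
    simp
    omega
  · rw [h] at h1
    simp at h1
    simp
    omega

/-- total duration of the jobs of frequency `f1` in a list -/
def tot (f1 : ℕ) (L : List (ℕ × ℕ)) : ℕ := (L.map (fun j => if j.1 = f1 then j.2 else 0)).sum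

theorem run_spec (f1 : ℕ) : ∀ (L : List (ℕ × ℕ)) (R : List Bool),
    (∀ j ∈ L, f1 ≤ j.1) → L.Pairwise (fun a b => a.1 ≤ b.1) →
    (run (encodeNat f1) R L = true ↔
      tot f1 L ≤ val R ∧ ∀ j ∈ L, j.1 ≠ f1 → tot f1 L + j.2 ≤ val R) := by
  intro L
  induction L with
  | nil => intro R _ _; simp [run, tot]
  | cons j L ih =>
    intro R hge hs
    have hgeL : ∀ x ∈ L, f1 ≤ x.1 := fun x hx => hge x (List.mem_cons_of_mem _ hx)
    rw [List.pairwise_cons] at hs
    have hb := subL_borrow (decide (encodeNat j.1 = encodeNat f1)) (encodeNat j.2) R
    rw [val_encodeNat] at hb
    by_cases hj : j.1 = f1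
    · have he : (decide (encodeNat j.1 = encodeNat f1)) = true := by simp [hj]
      rw [he] at hb
      have htot : tot f1 (j :: L) = j.2 + tot f1 L := by simp [tot, hj]
      simp only [run, he]
      by_cases hlt : val R < j.2
      · rw [if_pos (hb.2 hlt), htot]
        constructor
        · intro h; exact absurd h (by simp)
        · rintro ⟨h, -⟩; omega
      · rw [if_neg (fun h => hlt (hb.1 h)), ih _ hgeL hs.2, htot]
        have hbf : (subL true (encodeNat j.2) R false).2 = false := by
          rw [← Bool.not_eq_true]; exact fun h => hlt (hb.1 h)
        have h1 := subL_true (encodeNat j.2) R false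
        rw [hbf, val_encodeNat] at h1
        simp at h1
        have hv : val (subL true (encodeNat j.2) R false).1 = val R - j.2 := by omega
        rw [hv]
        constructor
        · rintro ⟨h2, h3⟩
          refine ⟨by omega, ?_⟩
          intro x hx hxf
          rw [List.mem_cons] at hx
          rcases hx with rfl | hx
          · exact absurd hj hxf
          · have := h3 x hx hxf; omega
        · rintro ⟨h2, h3⟩
          refine ⟨by omega, ?_⟩
          intro x hx hxf
          have := h3 x (List.mem_cons_of_mem _ hx) hxf
          omega
    · have he : (decide (encodeNat j.1 = encodeNat f1)) = false := by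
        simp [encodeNat_inj, hj]
      rw [he] at hb
      have hjgt : f1 < j.1 := lt_of_le_of_ne (hge j (List.mem_cons_self)) (Ne.symm hj)
      have hLgt : ∀ x ∈ L, x.1 ≠ f1 := fun x hx => by
        have := hs.1 x hx; omega
      have htotL : tot f1 L = 0 := by
        unfold tot
        rw [List.sum_eq_zero_iff]
        intro x hx
        rw [List.mem_map] at hx
        obtain ⟨y, hy, rfl⟩ := hx
        rw [if_neg (hLgt y hy)]
      have htot : tot f1 (j :: L) = 0 := by
        have : tot f1 (j :: L) = tot f1 L := by simp [tot, hj]
        rw [this, htotL]
      simp only [run, he]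
      by_cases hlt : val R < j.2
      · rw [if_pos (hb.2 hlt), htot]
        constructor
        · intro h; exact absurd h (by simp)
        · rintro ⟨-, h⟩
          have := h j List.mem_cons_self hj
          omega
      · rw [if_neg (fun h => hlt (hb.1 h)), ih _ hgeL hs.2, htot, htotL, subL_false]
        constructor
        · rintro ⟨h2, h3⟩
          refine ⟨by omega, ?_⟩
          intro x hx hxf
          rw [List.mem_cons] at hx
          rcases hx with rfl | hx
          · omega
          · exact h3 x hx hxf
        · rintro ⟨h2, h3⟩
          refine ⟨by omega, ?_⟩
          intro x hx hxf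
          exact h3 x (List.mem_cons_of_mem _ hx) hxf

end Pool.Agent.H80.Pin
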